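import Pool.Agent.helper4.EC.Spec

set_option autoImplicit false

/-! Row `LN` (second prover): two slides out of the same vertex end in adjacent vertices. -/

namespace Pool.Agent.helper4.EC

open Finset

universe u

theorem LN : LN_stmt.{u} := by
  intro V _ G X x y z hy hz hne
  obtain ⟨_, hyX, _, hyI⟩ := hy
  obtain ⟨_, _, _, hzI⟩ := hz
  have hyn : y ∉ insert z (X.erase x) := by
    intro h
    rcases Finset.mem_insert.1 h with h | h
    · exact hne h
    · exact hyX (Finset.mem_of_mem_erase h)
  obtain ⟨u, hu, hadj⟩ := hzI.1.2 y hyn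
  rcases Finset.mem_insert.1 hu with h | h
  · subst h
    exact hadj.symm
  · exact absurd hadj (hyI.1.1 u (Finset.mem_insert_of_mem h) y (Finset.mem_insert_self y _))

end Pool.Agent.helper4.EC
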